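import Pool.Agent.H83.AT.Targets

open CategoryTheory CategoryTheory.Limits TopologicalSpace Topology Set Opposite

namespace Pool.Agent.H64.AT

open Pool.Agent.H96.AL Pool.Agent.H83.AT

/-- FC: a germ vanishing at one point of the fibre vanishes along the fibre -/
theorem pf_FS : T_FS := by
  intro F _ W G hG w O s hO t t' ht h
  let Z : Set unitInterval := {u | gm G (hO u) s = 0}
  have hcont : Continuous (fun v : unitInterval => ((w, v) : cyl W)) :=
    Continuous.prodMk continuous_const continuous_id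
  have hZo : IsOpen Z := by
    rw [isOpen_iff_mem_nhds]
    intro u hu
    obtain ⟨B, hB, h1, h2, e⟩ := gm_eq G (hO u) (hO u) s 0 (by rw [map_zero]; exact hu)
    have hn : (fun v : unitInterval => ((w, v) : cyl W)) ⁻¹' (B : Set (cyl W)) ∈ 𝓝 u :=
      (B.isOpen.preimage hcont).mem_nhds hB
    filter_upwards [hn] with v hv
    have h3 := congrArg (gm G (show ((w, v) : cyl W) ∈ B from hv)) e
    rw [gm_rs, gm_rs, map_zero] at h3
    exact h3
  have hZc : IsOpen Zᶜ := by
    rw [isOpen_iff_mem_nhds]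
    intro u hu
    obtain ⟨J, hJo, hJu, hJ⟩ := hG w u
    obtain ⟨O', s', h1, h2, h3⟩ := hJ u hJu (gm G (hO u) s)
    have h4 := h3 hu
    obtain ⟨B, hB, hb1, hb2, e⟩ := gm_eq G (hO u) (h1 u hJu) s s' (h2 (h1 u hJu)).symm
    have hn : (fun v : unitInterval => ((w, v) : cyl W)) ⁻¹' (B : Set (cyl W)) ∈ 𝓝 u :=
      (B.isOpen.preimage hcont).mem_nhds hB
    filter_upwards [hn, hJo.mem_nhds hJu] with v hv hvJ
    intro hv0
    apply h4 v hvJ (h1 v hvJ)
    have h5 := congrArg (gm G (show ((w, v) : cyl W) ∈ B from hv)) e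
    rw [gm_rs, gm_rs] at h5
    exact h5.symm.trans hv0
  have hcl : IsClopen Z := ⟨⟨hZc⟩, hZo⟩
  rcases isClopen_iff.1 hcl with h0 | h1
  · have h2 : t ∈ Z := ht (hO t)
    rw [h0] at h2
    exact h2.elim
  · have h2 : t' ∈ Z := by rw [h1]; trivial
    exact h2

end Pool.Agent.H64.AT
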