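import Pool.Agent.H83.AT.Targets

open CategoryTheory CategoryTheory.Limits TopologicalSpace Topology Set Opposite

namespace Pool.Agent.H64.AT

open Pool.Agent.H96.AL Pool.Agent.H83.AT

/-- gluing of sections along a fibre -/
theorem pf_GL : T_GL := by
  intro F _ W G w a b c hab hbc O O' s s' h1 h2 h3
  have hb1 : ((w, b) : cyl W) ∈ O := h1 b ⟨hab, le_rfl⟩
  have hb2 : ((w, b) : cyl W) ∈ O' := h2 b ⟨le_rfl, hbc⟩
  obtain ⟨B0, hB0, k1, k2, e⟩ := gm_eq G hb1 hb2 s s' (h3 hb1 hb2)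
  let L : Opens (cyl W) := ⟨{p | p.2 < b}, isOpen_lt continuous_snd continuous_const⟩
  let R : Opens (cyl W) := ⟨{p | b < p.2}, isOpen_lt continuous_const continuous_snd⟩
  have m1 : (O ⊓ L) ⊔ B0 ≤ O := sup_le inf_le_left k1
  have m2 : (O' ⊓ R) ⊔ B0 ≤ O' := sup_le inf_le_left k2
  obtain ⟨v, hv1, hv2⟩ := glue2 G (rs G m1 s) (rs G m2 s') (by
    intro x hU hV
    rw [gm_rs, gm_rs]
    have hx : x ∈ B0 := by
      rcases hU with hl | hB
      · rcases hV with hr | hB'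
        · have hl' : x.2 < b := hl.2
          have hr' : b < x.2 := hr.2
          exact absurd (lt_trans hl' hr') (lt_irrefl _)
        · exact hB'
      · exact hB
    have h4 := congrArg (gm G hx) e
    rw [gm_rs, gm_rs] at h4
    exact h4)
  have q1 : ∀ u ∈ Icc a b, ((w, u) : cyl W) ∈ (O ⊓ L) ⊔ B0 := by
    intro u hu
    rcases lt_or_eq_of_le hu.2 with hlt | heq
    · exact Or.inl ⟨h1 u hu, hlt⟩
    · refine Or.inr ?_
      rw [heq]
      exact hB0
  have q2 : ∀ u ∈ Icc b c, ((w, u) : cyl W) ∈ (O' ⊓ R) ⊔ B0 := by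
    intro u hu
    rcases lt_or_eq_of_le hu.1 with hlt | heq
    · exact Or.inl ⟨h2 u hu, hlt⟩
    · refine Or.inr ?_
      rw [← heq]
      exact hB0
  refine ⟨_, v, ?_, ?_, ?_⟩
  · intro u hu
    rcases le_total u b with h | h
    · exact Or.inl (q1 u ⟨hu.1, h⟩)
    · exact Or.inr (q2 u ⟨h, hu.2⟩)
  · intro u hu h h''
    have h4 := hv1 (w, u) (q1 u hu)
    rw [gm_rs] at h4
    exact h4
  · intro u hu h' h''
    have h4 := hv2 (w, u) (q2 u hu)
    rw [gm_rs] at h4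
    exact h4

end Pool.Agent.H64.AT
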