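import Pool.Agent.H83.AT.Targets

open CategoryTheory CategoryTheory.Limits TopologicalSpace Topology Set Opposite

namespace Pool.Agent.H64.AT

open Pool.Agent.H96.AL Pool.Agent.H83.AT

/-- interval induction -/
theorem pf_II : T_II := by
  intro P htr hloc
  choose J hJo hJt hJP using hloc
  obtain ⟨t, h0, hm, ⟨n, hn⟩, hc⟩ := exists_monotone_Icc_subset_open_cover_unitInterval
    (c := fun t => J t) (fun t => hJo t) (by intro x _; exact mem_iUnion.2 ⟨x, hJt x⟩)
  have key : ∀ n, P 0 (t n) := by
    intro n
    induction n with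
    | zero =>
      rw [h0]
      apply hJP 0 0 0 le_rfl
      intro x hx
      have hx0 : x = 0 := le_antisymm hx.2 hx.1
      rw [hx0]
      exact hJt 0
    | succ n ih =>
      obtain ⟨i, hi⟩ := hc n
      exact htr _ _ _ unitInterval.nonneg' (hm (Nat.le_succ n)) ih
        (hJP i _ _ (hm (Nat.le_succ n)) hi)
  have := key n
  rwa [hn n le_rfl] at this

end Pool.Agent.H64.AT
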