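import Pool.Agent.H83.AT.Targets

open CategoryTheory CategoryTheory.Limits TopologicalSpace Topology Set Opposite

namespace Pool.Agent.H64.AT

open Pool.Agent.H96.AL Pool.Agent.H83.AT

/-- lifting of sections along a fibre -/
theorem pf_VL (hII : T_II) (hGL : T_GL) (hTL : T_TL) : T_VL := by
  intro F _ W A B C f g w hS hPE N x hx c
  rw [shortExact_iff] at hS
  obtain ⟨hf, hg, hex⟩ := hS
  have hxN : ∀ t : unitInterval, ((x, t) : cyl W) ∈ pre (pr W) N := fun t => hx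
  have hcont : Continuous (fun v : unitInterval => ((x, v) : cyl W)) :=
    Continuous.prodMk continuous_const continuous_id
  let P : unitInterval → unitInterval → Prop := fun a b =>
    ∃ (O : Opens (cyl W)) (u : Sec B O), (∀ t ∈ Icc a b, ((x, t) : cyl W) ∈ O) ∧
      ∀ t ∈ Icc a b, ∀ h : ((x, t) : cyl W) ∈ O, sm g (x, t) (gm B h u) = gm C (hxN t) c
  have hP : P 0 1 := by
    apply hII P
    · rintro a b d hab hbd ⟨O, u, h1, h2⟩ ⟨O', u', h1', h2'⟩
      have hb : b ∈ Icc a b := ⟨hab, le_rfl⟩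
      have hb' : b ∈ Icc b d := ⟨le_rfl, hbd⟩
      obtain ⟨a0, ha0⟩ := hex (x, b) (gm B (h1 b hb) u - gm B (h1' b hb') u') (by
        rw [map_sub, h2 b hb, h2' b hb', sub_self])
      obtain ⟨N1, hxN1, s, hs⟩ := hPE x b a0
      have hle1 : O' ⊓ pre (pr W) N1 ≤ O' := inf_le_left
      have hle2 : O' ⊓ pre (pr W) N1 ≤ pre (pr W) N1 := inf_le_right
      obtain ⟨O'', u'', k1, k2, k3⟩ := hGL F W B x a b d hab hbd O (O' ⊓ pre (pr W) N1) u
        (rs B hle1 u' + ap f _ (rs A hle2 s)) h1 (fun t ht => ⟨h1' t ht, hxN1⟩) (by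
          intro h h'
          rw [map_add, gm_rs, gm_ap, gm_rs, hs, ha0]
          abel)
      refine ⟨O'', u'', k1, ?_⟩
      intro t ht h
      rcases le_total t b with htb | hbt
      · rw [k2 t ⟨ht.1, htb⟩ (h1 t ⟨ht.1, htb⟩) h, h2 t ⟨ht.1, htb⟩]
      · have ht2 : t ∈ Icc b d := ⟨hbt, ht.2⟩
        have hz : sm g (x, t) (sm f (x, t) (gm A (show ((x, t) : cyl W) ∈ pre (pr W) N1 from hxN1) s))
            = 0 := by
          rw [← gm_ap, ← gm_ap, ← ap_comp, w]
          exact map_zero (gm C _)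
        have hm : ((x, t) : cyl W) ∈ O' ⊓ pre (pr W) N1 := ⟨h1' t ht2, hxN1⟩
        have e1 : sm g (x, t) (gm B hm (rs B hle1 u')) = gm C (hxN t) c :=
          (congrArg (sm g (x, t)) (gm_rs B hle1 hm u')).trans (h2' t ht2 (h1' t ht2))
        have e2 : sm g (x, t) (gm B hm (ap f _ (rs A hle2 s))) = 0 :=
          (congrArg (sm g (x, t)) ((gm_ap f hm _).trans
            (congrArg (sm f (x, t)) (gm_rs A hle2 hm s)))).trans hz
        have e3 := k3 t ht2 hm h
        have e4 : sm g (x, t) (gm B hm (rs B hle1 u' + ap f _ (rs A hle2 s))) =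
            sm g (x, t) (gm B hm (rs B hle1 u')) +
              sm g (x, t) (gm B hm (ap f _ (rs A hle2 s))) := by
          rw [map_add, map_add]
        exact (congrArg (sm g (x, t)) e3).trans
          (e4.trans ((congrArg₂ (fun a b => a + b) e1 e2).trans (add_zero _)))
    · intro t
      obtain ⟨b0, hb0⟩ := hg (x, t) (gm C (hxN t) c)
      obtain ⟨O, hO, u, rfl⟩ := exists_gm B b0
      rw [← gm_ap] at hb0
      obtain ⟨O1, hO1, k1, k2, e⟩ := gm_eq C hO (hxN t) (ap g O u) c hb0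
      refine ⟨(fun v : unitInterval => ((x, v) : cyl W)) ⁻¹' (O1 : Set (cyl W)),
        O1.isOpen.preimage hcont, hO1, ?_⟩
      intro a b hab hJ
      refine ⟨O, u, fun t ht => k1 (hJ ht), ?_⟩
      intro v hv h
      rw [← gm_ap]
      have h3 := congrArg (gm C (show ((x, v) : cyl W) ∈ O1 from hJ hv)) e
      rw [gm_rs, gm_rs] at h3
      exact h3
  obtain ⟨O, u, h1, h2⟩ := hP
  have hI : ∀ t : unitInterval, t ∈ Icc (0 : unitInterval) 1 :=
    fun t => ⟨unitInterval.nonneg', unitInterval.le_one'⟩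
  have key : ∀ t : unitInterval, ∃ (O1 : Opens (cyl W)) (_ : ((x, t) : cyl W) ∈ O1)
      (k1 : O1 ≤ O) (k2 : O1 ≤ pre (pr W) N), rs C k1 (ap g O u) = rs C k2 c := by
    intro t
    exact gm_eq C (h1 t (hI t)) (hxN t) (ap g O u) c (by rw [gm_ap]; exact h2 t (hI t) _)
  choose Ot hOt k1 k2 e using key
  have l1 : iSup Ot ≤ O := iSup_le k1
  have l2 : iSup Ot ≤ pre (pr W) N := iSup_le k2
  obtain ⟨N2, hN2, hN2'⟩ := hTL W x (iSup Ot) (fun t => Opens.mem_iSup.2 ⟨t, hOt t⟩)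
  have hle : pre (pr W) (N2 ⊓ N) ≤ iSup Ot := fun y hy => hN2' hy.1
  refine ⟨N2 ⊓ N, ⟨hN2, hx⟩, inf_le_right, rs B (hle.trans l1) u, ?_⟩
  apply sec_ext
  intro y hy
  obtain ⟨t, ht⟩ := Opens.mem_iSup.1 (hle hy)
  have h3 := congrArg (gm C ht) (e t)
  rw [gm_rs, gm_rs, gm_ap] at h3
  rw [gm_ap, gm_rs, gm_rs]
  exact h3

end Pool.Agent.H64.AT
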